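import Mathlib
import Pool.Agent.Work.MP_b62148_ag.CI.Quin
import Pool.Agent.Work.MP_b62148_ag.CI.ExistL

/-!
Smooth Fano complete intersections of multidegree `(d_1, ..., d_c)`, where the sum of the
`d_i - 2` is at most two or the sum of the `d_i - 1` is at most four, which contain a linear space
of the expected dimension: unirationality over every field of definition of the linear space, and
potential density for every member in a range of dimensions.
-/

namespace Pool.Agent.Results.MP_b62148_ag.CompleteIntersections

open MvPolynomial

/-- The forms `G_1, ..., G_c` define a smooth complete intersection: at every common zero other than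
the origin, over the algebraic closure, the gradients of the `G_i` are linearly independent. -/
def IsSmoothCI {K : Type*} [Field K] {σ : Type*} {c : ℕ} (G : Fin c → MvPolynomial σ K) : Prop :=
  ∀ x : σ → AlgebraicClosure K, x ≠ 0 → (∀ i, aeval x (G i) = 0) →
    LinearIndependent (AlgebraicClosure K) (fun (i : Fin c) (l : σ) => aeval x (pderiv l (G i)))

/-- The forms `G_i` over `K` all vanish on the span of some `r` linearly independent vectors with
coordinates in the extension `E`: their common zero locus contains a linear space of projective
dimension `r - 1` defined over `E`. -/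
def ContainsSpace {K : Type*} [Field K] {σ : Type*} {c : ℕ} (G : Fin c → MvPolynomial σ K)
    (E : Type*) [Field E] [Algebra K E] (r : ℕ) : Prop :=
  ∃ v : Fin r → σ → E, LinearIndependent E v ∧
    ∀ (i : Fin c) (s : Fin r → E), aeval (fun l => ∑ j, s j * v j l) (G i) = 0

/-- The common zero locus of the `G_i` is unirational over `K`: there are polynomials `P_l` in `m`
variables over `K`, for some `m`, at which all the `G_i` vanish identically, and such that every
polynomial over `K` vanishing identically at `P` vanishes at all common zeros of the `G_i` over the
algebraic closure (the map given by `P` from affine space to the common zero locus is dominant). -/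
def Unirational {K : Type*} [Field K] {σ : Type*} {c : ℕ} (G : Fin c → MvPolynomial σ K) : Prop :=
  ∃ (m : ℕ) (P : σ → MvPolynomial (Fin m) K), (∀ i, aeval P (G i) = 0) ∧
    ∀ H : MvPolynomial σ K, aeval P H = 0 →
      ∀ x : σ → AlgebraicClosure K, (∀ i, aeval x (G i) = 0) → aeval x H = 0

/-- The `K`-points of the common zero locus of the `G_i` are Zariski dense: every polynomial over
`K` vanishing at all common zeros of the `G_i` with coordinates in `K` vanishes at all their common
zeros over the algebraic closure. -/
def DensePoints {K : Type*} [Field K] {σ : Type*} {c : ℕ} (G : Fin c → MvPolynomial σ K) : Prop :=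
  ∀ H : MvPolynomial σ K, (∀ x : σ → K, (∀ i, eval x (G i) = 0) → eval x H = 0) →
    ∀ x : σ → AlgebraicClosure K, (∀ i, aeval x (G i) = 0) → aeval x H = 0

/-- Let `k` be a field of characteristic zero and `X` a smooth complete intersection in `P ^ n` of
forms of degrees `d_i` at least two, with `∑ d_i ≤ n` (so `X` is Fano) and with
`∑ (d_i - 2) ≤ 2` or `∑ (d_i - 1) ≤ 4`. Put `r = ∑ (d_i - 1)` and suppose that `X` contains a linear
space of dimension `r - 1` over the algebraic closure, or that
`r + ∑ binom (r + d_i - 2) (d_i - 1) ≤ n + 1`. Then over some finite extension `L` of `k` the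
variety `X` is unirational and its `L`-points are Zariski dense; and if `X` contains a linear
space of dimension `r - 1` defined over `k` then `L = k` will do. -/
theorem result {k : Type*} [Field k] [CharZero k] (n c : ℕ) (d : Fin c → ℕ) (hd : ∀ i, 2 ≤ d i)
    (hdeg : ∑ i, (d i - 2) ≤ 2 ∨ ∑ i, (d i - 1) ≤ 4) (hn : ∑ i, d i ≤ n)
    (G : Fin c → MvPolynomial (Fin (n + 1)) k) (hG : ∀ i, (G i).IsHomogeneous (d i))
    (hs : IsSmoothCI G) (r : ℕ) (hr : r = ∑ i, (d i - 1))
    (hlin : ContainsSpace G (AlgebraicClosure k) r ∨
      r + ∑ i, (r + d i - 2).choose (d i - 1) ≤ n + 1) :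
    ∃ L : IntermediateField k (AlgebraicClosure k), FiniteDimensional k L ∧
      (ContainsSpace G k r → L = ⊥) ∧
      Unirational (fun i => map (algebraMap k L) (G i)) ∧
      DensePoints (fun i => map (algebraMap k L) (G i)) := by
  classical
  have hs' : Pool.Agent.Work.PDC.SmoothCI G := by
    intro x hx0 hx a ha
    have h1 := Fintype.linearIndependent_iff.mp (hs x hx0 hx) a (by
      funext l
      simpa [Finset.sum_apply] using ha l)
    funext i
    exact h1 i
  have hcard : ∑ i, d i < Fintype.card (Fin (n + 1)) := by
    rw [Fintype.card_fin]
    omega
  have main : ∀ L : IntermediateField k (AlgebraicClosure k), ∀ e : Fin r → Fin (n + 1) → L,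
      LinearIndependent L e →
      (∀ i, Pool.Agent.Work.PDC.IsoK (map (algebraMap k L) (G i)) e) →
      Unirational (fun i => map (algebraMap k L) (G i)) ∧
        DensePoints (fun i => map (algebraMap k L) (G i)) := by
    intro L e he hiso
    have := charZero_of_injective_algebraMap (algebraMap k L).injective
    exact Pool.Agent.Work.PDC.final_all d hd hdeg _ (fun i => (hG i).map _) (hs'.map' L) hcard hr e
      he hiso
  by_cases hk : ContainsSpace G k r
  · obtain ⟨v, hv, hiso⟩ := hk
    refine ⟨⊥, inferInstance, fun _ => rfl, ?_⟩
    let L : IntermediateField k (AlgebraicClosure k) := ⊥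
    refine main L (fun j l => algebraMap k L (v j l)) ?_ ?_
    · have h1 : LinearIndependent L (fun j => algebraMap k L ∘ v j) :=
        linearIndependent_algebraMap_comp_iff.mpr hv
      exact h1
    · intro i c
      have hbot : Function.Surjective (algebraMap k L) :=
        (IntermediateField.botEquiv k (AlgebraicClosure k)).symm.surjective
      choose c' hc' using fun j => hbot (c j)
      rw [aeval_map_algebraMap]
      have h1 := congrArg (algebraMap k L) (hiso i c')
      rw [map_zero, ← aeval_algebraMap_apply] at h1
      rw [← h1]
      congr 2
      funext l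
      simp only [Pool.Agent.Work.PDC.emb, Function.comp_apply, map_sum, map_mul, hc',
        Algebra.algebraMap_self, RingHom.id_apply]
  · have hcl : ContainsSpace G (AlgebraicClosure k) r := by
      rcases hlin with h | h
      · exact h
      · obtain ⟨e, he, hiso⟩ := Pool.Agent.Work.PDC.exists_space
          (fun i => map (algebraMap k (AlgebraicClosure k)) (G i)) d (fun i => (hG i).map _)
          (fun i => by have := hd i; omega) r (by rw [Fintype.card_fin]; omega)
        refine ⟨e, he, fun i s => ?_⟩
        have h1 := hiso i s
        rw [aeval_map_algebraMap] at h1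
        exact h1
    obtain ⟨e, he, hiso⟩ := hcl
    obtain ⟨L, hL, e', he', hiso'⟩ := Pool.Agent.Work.PDC.descend_space G e he hiso
    exact ⟨L, hL, fun h => absurd h hk, main L e' he' hiso'⟩

end Pool.Agent.Results.MP_b62148_ag.CompleteIntersections
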