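import Mathlib
import Pool.Agent.Work.MP_b62148_ag.Nonic.MainOdd
import Pool.Agent.Work.MP_b62148_ag.D9odd.DetIso

/-!
Conic bundles over the plane with a smooth discriminant curve of degree nine, odd class: the conic
bundles `Q` such that `Q` plus two hyperbolic planes is similar over `K(x_0, x_1, x_2)` to the form
`sum x_i T_i(A) + (x_0^2 A_2 + x_0 x_1 A_3 + x_1^2 A_4 + x_2^2 A_5) s` in `A_0, ..., A_5, s`, where
the `T_i` are quadratic forms in six variables.
-/

namespace Pool.Agent.Work.MP_b62148_ag.Old.NonicOdd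

open MvPolynomial Matrix

universe u v

/-- Three quadratic forms in six variables: `T_i(A) = sum of T i a b * A_a * A_b`. -/
structure Datum (K : Type u) where
  /-- the coefficients -/
  T : Fin 3 → Matrix (Fin 6) (Fin 6) K

/-- The points of the conic bundle `sum of Q i j (x) * u_i * u_j = 0` with coordinates in `K` are
Zariski dense: every polynomial over `K` in `x` and `u` that vanishes at all of them vanishes at
every point `(x, u)` with coordinates in the extension `Ω` over which the quadratic form `Q(x)` is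
not zero. -/
def PointsDense {K : Type u} [Field K] (Ω : Type v) [Field Ω] [Algebra K Ω]
    (Q : Matrix (Fin 3) (Fin 3) (MvPolynomial (Fin 3) K)) : Prop :=
  ∀ G : MvPolynomial (Fin 3 ⊕ Fin 3) K,
    (∀ x u : Fin 3 → K, x ≠ 0 → u ≠ 0 → ∑ i, ∑ j, eval x (Q i j) * u i * u j = 0 →
      eval (Sum.elim x u) G = 0) →
    ∀ x u : Fin 3 → Ω, x ≠ 0 → u ≠ 0 → ∑ i, ∑ j, aeval x (Q i j) * u i * u j = 0 →
      (∃ w : Fin 3 → Ω, ∑ i, ∑ j, aeval x (Q i j) * w i * w j ≠ 0) →
      aeval (Sum.elim x u) G = 0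

namespace Datum

/-- All coefficients. -/
def coeffs {K : Type u} (Y : Datum K) : Fin 3 × Fin 6 × Fin 6 → K := fun t => Y.T t.1 t.2.1 t.2.2

variable {K : Type u} [Field K] (Y : Datum K)

/-- Extension of scalars. -/
def extend (Ω : Type v) [Field Ω] [Algebra K Ω] : Datum Ω where
  T i := (Y.T i).map (algebraMap K Ω)

/-- The quadratic form `T_i(A)`. -/
def quad (i : Fin 3) (A : Fin 6 → K) : K := ∑ a, ∑ b, Y.T i a b * A a * A b

/-- The form `sum x_i T_i(A) + (x_0^2 A_2 + x_0 x_1 A_3 + x_1^2 A_4 + x_2^2 A_5) s` at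
`y = (A_0, ..., A_5, s)`. -/
noncomputable def form (y : Fin 7 → MvPolynomial (Fin 3) K) : MvPolynomial (Fin 3) K :=
  ∑ i, X i * (∑ a : Fin 6, ∑ b : Fin 6, C (Y.T i a b) * y a.castSucc * y b.castSucc) +
    (X 0 ^ 2 * y 2 + X 0 * X 1 * y 3 + X 1 ^ 2 * y 4 + X 2 ^ 2 * y 5) * y 6

/-- The discriminant: the determinant of the symmetric matrix of the form. -/
noncomputable def disc : MvPolynomial (Fin 3) K :=
  (Matrix.of fun a b : Fin 7 => Y.form (Pi.single a 1 + Pi.single b 1) -
    Y.form (Pi.single a 1) - Y.form (Pi.single b 1)).det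

/-- The conic bundle `Q` belongs to the class of `Y`: its determinant is not zero, and `Q` plus two
hyperbolic planes is similar to the form of `Y` over the field of rational functions. -/
def Attached (Q : Matrix (Fin 3) (Fin 3) (MvPolynomial (Fin 3) K)) : Prop :=
  (Q + Qᵀ).det ≠ 0 ∧ ∃ (P : Matrix (Fin 7) (Fin 7) (MvPolynomial (Fin 3) K))
    (c : MvPolynomial (Fin 3) K), P.det ≠ 0 ∧ c ≠ 0 ∧ ∀ y, Y.form (P *ᵥ y) =
      c * (∑ i, ∑ j, Q i j * ![y 0, y 1, y 2] i * ![y 0, y 1, y 2] j + y 3 * y 4 + y 5 * y 6)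

/-- The quadric `T_2(A) = 0` in the space `A_5 = 0` contains a line with coordinates in `K`. -/
def HasLine : Prop :=
  ∃ a b : Fin 6 → K, LinearIndependent K ![a, b] ∧ a 5 = 0 ∧ b 5 = 0 ∧
    Y.quad 2 a = 0 ∧ Y.quad 2 b = 0 ∧ Y.quad 2 (a + b) = 0

/-- The points of the space `A_5 = A_2 + v A_3 + v^2 A_4 = 0` of dimension four. -/
def point (v : K) (c : Fin 4 → K) : Fin 6 → K := ![c 0, c 1, v * c 2, v * c 3 - c 2, -c 3, 0]

/-- `d(v)`: the discriminant of `T_2` on the space `A_5 = A_2 + v A_3 + v^2 A_4 = 0`. -/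
def quartic (v : K) : K :=
  (Matrix.of fun a b : Fin 4 => Y.quad 2 (point v (Pi.single a 1 + Pi.single b 1)) -
    Y.quad 2 (point v (Pi.single a 1)) - Y.quad 2 (point v (Pi.single b 1))).det

/-- The curve `z^2 = d(v)`. -/
def curve : Set (K × K) := {p | p.2 ^ 2 = Y.quartic p.1}

/-- The discriminant is a form of degree nine and its curve is smooth. -/
def SmoothNonic : Prop :=
  Y.disc.IsHomogeneous 9 ∧
    ∀ x : Fin 3 → AlgebraicClosure K, x ≠ 0 → ∃ j, aeval x (pderiv j Y.disc) ≠ 0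

/-- The determinant of a multiple of `Q` is the discriminant up to squares. -/
def SameDisc (Q : Matrix (Fin 3) (Fin 3) (MvPolynomial (Fin 3) K)) : Prop :=
  ∃ p q c : MvPolynomial (Fin 3) K, p ≠ 0 ∧ q ≠ 0 ∧ c ≠ 0 ∧
    p ^ 2 * Y.disc = q ^ 2 * (c • (Q + Qᵀ)).det

/-- Some conic bundle over `K` belongs to the class, and the points over `K` of every such conic
bundle are Zariski dense. -/
def AllDense (Ω : Type v) [Field Ω] [Algebra K Ω] : Prop :=
  (∃ Q, Y.Attached Q) ∧ ∀ Q, Y.Attached Q → PointsDense Ω Q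

/-- The polynomial `Φ` does not vanish at the coefficients. -/
def General [CharZero K] (Φ : MvPolynomial (Fin 3 × Fin 6 × Fin 6) ℚ) : Prop :=
  aeval Y.coeffs Φ ≠ 0

/-- The form `D` over `k` is the discriminant after a linear change of coordinates over `K`. -/
def HasDiscriminant {k : Type v} [Field k] [Algebra k K] (D : MvPolynomial (Fin 3) k) : Prop :=
  ∃ g : Matrix (Fin 3) (Fin 3) K, g.det ≠ 0 ∧ ∀ x : Fin 3 → K, eval (g *ᵥ x) Y.disc = aeval x D

/-- Over some finite extension `L` of the field, some conic bundle belongs to the class, and the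
points over `L` of every such conic bundle are Zariski dense. -/
def DenseOverExtension : Prop :=
  ∃ L : IntermediateField K (AlgebraicClosure K), FiniteDimensional K L ∧
    (Y.extend L).AllDense (AlgebraicClosure K)

end Datum

/-- The form `D` has degree nine and the polynomial `Ψ` does not vanish at its coefficients. -/
def GeneralNonic {K : Type u} [Field K] [CharZero K]
    (Ψ : MvPolynomial {e : Fin 3 →₀ ℕ // e.degree = 9} ℚ) (D : MvPolynomial (Fin 3) K) : Prop :=
  D.IsHomogeneous 9 ∧ aeval (fun e : {e : Fin 3 →₀ ℕ // e.degree = 9} => coeff e.1 D) Ψ ≠ 0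

/-- Over some finite extension `L` of the field, `D` is, after a linear change of coordinates, the
discriminant of a datum `Y` over `L` such that `Φ(Y)` is not zero, some conic bundle over `L`
belongs to the class of `Y`, and the points over `L` of every such conic bundle are Zariski
dense. -/
def DiscriminantOverExtension {K : Type u} [Field K] [CharZero K]
    (Φ : MvPolynomial (Fin 3 × Fin 6 × Fin 6) ℚ) (D : MvPolynomial (Fin 3) K) : Prop :=
  ∃ L : IntermediateField K (AlgebraicClosure K), FiniteDimensional K L ∧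
    ∃ Y : Datum L, Y.General Φ ∧ Y.HasDiscriminant D ∧ Y.AllDense (AlgebraicClosure K)

section proofs

open Pool.Agent.Work Datum

variable {K : Type u} [Field K]

theorem bf_sum {S : Type*} [CommRing S] {m : Type*} [Fintype m] (N : Matrix m m S) (u w : m → S) :
    D9odd.bf N u w = ∑ i, ∑ j, N i j * u i * w j := by
  simp only [D9odd.bf, dotProduct, mulVec, Finset.mul_sum]
  exact Finset.sum_congr rfl fun i _ => Finset.sum_congr rfl fun j _ => by ring

theorem form_eq (Y : Datum K) (y : Fin 7 → MvPolynomial (Fin 3) K) :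
    Y.form y = D9odd.form7 ((Y.T 2).map C) ((Y.T 0).map C) ((Y.T 1).map C) X y := by
  unfold Datum.form D9odd.form7 D9odd.netForm D9odd.hForm
  rw [Fin.sum_univ_three, bf_sum, bf_sum, bf_sum]
  rfl

theorem disc_eq (Y : Datum K) : Y.disc = D9odd.disc7 (Y.T 2) (Y.T 0) (Y.T 1) := by
  unfold Datum.disc D9odd.disc7
  congr 1
  ext a b : 2
  rw [Matrix.of_apply, form_eq, form_eq, form_eq, D9odd.bf_mat7, D9odd.bf_mat7, D9odd.bf_mat7,
    D9odd.bf_add_left, D9odd.bf_add_right, D9odd.bf_add_right]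
  have h : ∀ (N : Matrix (Fin 7) (Fin 7) (MvPolynomial (Fin 3) K)) (i j : Fin 7),
      D9odd.bf N (Pi.single i 1) (Pi.single j 1) = N i j := by
    intro N i j
    simp [D9odd.bf]
  rw [h, h, h, h, Matrix.add_apply, Matrix.transpose_apply]
  ring_nf

theorem attached_iff (Y : Datum K) (Q : Matrix (Fin 3) (Fin 3) (MvPolynomial (Fin 3) K)) :
    Y.Attached Q ↔ (Q + Qᵀ).det ≠ 0 ∧ D9odd.HasIso (Y.T 2) (Y.T 0) (Y.T 1) Q := by
  unfold Datum.Attached D9odd.HasIso
  simp only [form_eq, D9odd.form3, bf_sum]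

theorem dense_of {Ω : Type v} [Field Ω] [Algebra K Ω]
    {Q : Matrix (Fin 3) (Fin 3) (MvPolynomial (Fin 3) K)} (h : D9odd.DensePts K Ω Q) :
    PointsDense Ω Q := by
  intro G hG x u hx _ hq hw
  obtain ⟨w, hw⟩ := hw
  refine h G (fun x u hx hu hq => hG x u hx hu ?_) x u hx ?_ ⟨w, ?_⟩
  · rw [bf_sum] at hq
    exact hq
  · rw [bf_sum]
    exact hq
  · rw [bf_sum]
    exact hw

theorem isoPlane_of (Y : Datum K) (h : Y.HasLine) : D9odd.IsoPlane (D9odd.sub5 (Y.T 2)) := by
  obtain ⟨a, b, hab, ha5, hb5, ha, hb, hc⟩ := h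
  have ea : Fin.snoc (α := fun _ => K) (fun i : Fin 5 => a i.castSucc) 0 = a := by
    funext i
    refine Fin.lastCases ?_ (fun i => ?_) i
    · rw [Fin.snoc_last]
      exact ha5.symm
    · rw [Fin.snoc_castSucc]
  have eb : Fin.snoc (α := fun _ => K) (fun i : Fin 5 => b i.castSucc) 0 = b := by
    funext i
    refine Fin.lastCases ?_ (fun i => ?_) i
    · rw [Fin.snoc_last]
      exact hb5.symm
    · rw [Fin.snoc_castSucc]
  have hq : ∀ A : Fin 6 → K, Y.quad 2 A = D9odd.bf (Y.T 2) A A := fun A => (bf_sum _ _ _).symm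
  rw [hq] at ha hb hc
  rw [D9odd.bf_add_left, D9odd.bf_add_right, D9odd.bf_add_right, ha, hb, zero_add, add_zero] at hc
  refine ⟨fun i => a i.castSucc, fun i => b i.castSucc, ?_, ?_, ?_, ?_⟩
  · rw [LinearIndependent.pair_iff] at hab ⊢
    intro s t hst
    apply hab s t
    funext i
    refine Fin.lastCases ?_ (fun i => ?_) i
    · show s * a (Fin.last 5) + t * b (Fin.last 5) = 0
      have h1 : a (Fin.last 5) = 0 := ha5
      have h2 : b (Fin.last 5) = 0 := hb5
      rw [h1, h2, mul_zero, mul_zero, add_zero]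
    · exact congrFun hst i
  · rw [D9odd.bf_sub5, ea, ha, add_zero]
  · rw [D9odd.bf_sub5, ea, eb]
    exact hc
  · rw [D9odd.bf_sub5, eb, hb, add_zero]

theorem quad_eq (Y : Datum K) (A : Fin 6 → K) : Y.quad 2 A = D9odd.bf (Y.T 2) A A :=
  (bf_sum _ _ _).symm

theorem point_eq (v : K) (c : Fin 4 → K) :
    point v c = Fin.snoc (α := fun _ => K) (D9odd.hyp v *ᵥ c) 0 := by
  funext i
  fin_cases i
  · show c 0 = (D9odd.hyp v *ᵥ c) 0
    simp [D9odd.hyp, mulVec, dotProduct, Fin.sum_univ_four]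
  · show c 1 = (D9odd.hyp v *ᵥ c) 1
    simp [D9odd.hyp, mulVec, dotProduct, Fin.sum_univ_four]
  · show v * c 2 = (D9odd.hyp v *ᵥ c) 2
    simp [D9odd.hyp, mulVec, dotProduct, Fin.sum_univ_four]
  · show v * c 3 - c 2 = (D9odd.hyp v *ᵥ c) 3
    simp [D9odd.hyp, mulVec, dotProduct, Fin.sum_univ_four]
    ring
  · show -c 3 = (D9odd.hyp v *ᵥ c) 4
    simp [D9odd.hyp, mulVec, dotProduct, Fin.sum_univ_four]
  · rfl

theorem quartic_eq (Y : Datum K) (v : K) :
    Y.quartic v = (D9odd.pen0 (D9odd.sub5 (Y.T 2)) v).det := by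
  unfold Datum.quartic D9odd.pen0
  congr 1
  ext a b
  have h : ∀ (N : Matrix (Fin 4) (Fin 4) K) (i j : Fin 4),
      D9odd.bf N (Pi.single i 1) (Pi.single j 1) = N i j := by
    intro N i j
    simp [D9odd.bf]
  have hadd : point v (Pi.single a 1 + Pi.single b 1) =
      point v (Pi.single a 1) + point v (Pi.single b 1) := by
    funext i
    fin_cases i <;> simp [point] <;> ring
  rw [Matrix.of_apply, quad_eq, quad_eq, quad_eq, hadd, D9odd.bf_add_left, D9odd.bf_add_right,
    D9odd.bf_add_right, ← h ((D9odd.hyp v)ᵀ * D9odd.sub5 (Y.T 2) * D9odd.hyp v) a b,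
    D9odd.bf_congr, D9odd.bf_sub5, ← point_eq, ← point_eq]
  ring

theorem infE_of (Y : Datum K) (h : Y.curve.Infinite) :
    D9odd.InfE (Y.T 2) (Y.T 0) (Y.T 1) := by
  unfold D9odd.InfE
  have h1 : D9odd.CPts ((D9odd.penDet (D9odd.sub5 (Y.T 2)) (D9odd.sub5 (Y.T 0))
      (D9odd.sub5 (Y.T 1))).coeff 0) = Y.curve := by
    ext p
    have h2 := D9odd.penDet_sum (D9odd.sub5 (Y.T 2)) (D9odd.sub5 (Y.T 0)) (D9odd.sub5 (Y.T 1))
      (Polynomial.evalRingHom p.1) 0
    have h3 : (Polynomial.evalRingHom p.1).comp Polynomial.C = RingHom.id K := by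
      ext a
      simp
    have h4 : ∀ T : Matrix (Fin 5) (Fin 5) K, T.map (RingHom.id K) = T := fun T => by
      ext i j
      rfl
    rw [h3, h4, h4, h4, zero_smul, add_zero, mul_zero, add_zero, zero_pow (by norm_num),
      zero_pow (by norm_num), zero_pow (by norm_num), mul_zero, mul_zero, mul_zero, add_zero,
      add_zero, add_zero] at h2
    show p.2 ^ 2 = Polynomial.evalRingHom p.1 _ ↔ p.2 ^ 2 = Y.quartic p.1
    rw [← h2, quartic_eq]
    have h5 : Polynomial.evalRingHom p.1 (Polynomial.X : Polynomial K) = p.1 := by simp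
    rw [h5]
  rw [h1]
  exact h

/-- reordering of the three forms -/
def ord : Fin 3 × Fin 6 × Fin 6 → Fin 3 × Fin 6 × Fin 6 := fun t => (![2, 0, 1] t.1, t.2.1, t.2.2)

theorem ord_injective : Function.Injective ord := by
  have h : Function.Injective (![2, 0, 1] : Fin 3 → Fin 3) := by decide
  rintro ⟨a, b, c⟩ ⟨a', b', c'⟩ h1
  simp only [ord, Prod.mk.injEq] at h1
  obtain ⟨h2, rfl, rfl⟩ := h1
  rw [h h2]

theorem aeval_ord {K : Type u} [Field K] [CharZero K] (Y : Datum K)
    (Φ : MvPolynomial (Fin 3 × Fin 6 × Fin 6) ℚ) :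
    aeval Y.coeffs (rename ord Φ) = aeval (D9odd.par6 (Y.T 2) (Y.T 0) (Y.T 1)) Φ := by
  rw [aeval_rename]
  congr 1
  apply congrArg
  funext t
  obtain ⟨a, b, c⟩ := t
  fin_cases a <;> rfl

theorem det_attached [CharZero K] (Y : Datum K) (Q : Matrix (Fin 3) (Fin 3) (MvPolynomial (Fin 3) K))
    (hQ : Y.Attached Q) : Y.SameDisc Q := by
  rw [attached_iff] at hQ
  obtain ⟨-, P, c, hP, hc, hi⟩ := hQ
  refine ⟨P.det, c ^ 2, c, hP, pow_ne_zero 2 hc, hc, ?_⟩
  rw [disc_eq, D9odd.det_of_iso P c hi, det_smul, Fintype.card_fin]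
  ring

theorem grid_degree (i : Fin 55) : (Nonic.ex Nonic.grid i).degree = 9 := by
  rw [Finsupp.degree_eq_sum, Fin.sum_univ_three]
  exact Nonic.grid_sum i

/-- the monomials of degree nine -/
noncomputable def mono (i : Fin 55) : {e : Fin 3 →₀ ℕ // e.degree = 9} :=
  ⟨Nonic.ex Nonic.grid i, grid_degree i⟩

theorem mono_injective : Function.Injective mono := fun _ _ h =>
  Nonic.ex_inj Nonic.grid Nonic.grid_inj (congrArg Subtype.val h)

end proofs

/-- Conic bundles with a discriminant curve of degree nine, odd class, and the general curve of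
degree nine, over any field of characteristic zero. -/
theorem result : ∃ (Φ : MvPolynomial (Fin 3 × Fin 6 × Fin 6) ℚ)
    (Ψ : MvPolynomial {e : Fin 3 →₀ ℕ // e.degree = 9} ℚ), Φ ≠ 0 ∧ Ψ ≠ 0 ∧
    ∀ (k : Type u) [Field k] [CharZero k],
      (∀ Y : Datum k, Y.General Φ →
        Y.SmoothNonic ∧ (∀ Q, Y.Attached Q → Y.SameDisc Q) ∧
        (Y.HasLine → Y.curve.Infinite →
          ∀ Q, Y.Attached Q → PointsDense (AlgebraicClosure k) Q) ∧
        Y.DenseOverExtension) ∧
      ∀ D : MvPolynomial (Fin 3) k, GeneralNonic Ψ D → DiscriminantOverExtension Φ D := by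
  obtain ⟨Φ, Ψ, hΦ, hΨ, H1, H2⟩ := Pool.Agent.Work.Nonic.odd_nonic.{u, u}
  refine ⟨rename ord Φ, rename mono Ψ,
    fun h => hΦ (rename_injective ord ord_injective (by rw [h, map_zero])),
    fun h => hΨ (rename_injective mono mono_injective (by rw [h, map_zero])), ?_⟩
  intro k _ _
  refine ⟨fun Y hY => ?_, fun D hD => ?_⟩
  · unfold Datum.General at hY
    rw [aeval_ord] at hY
    obtain ⟨a, b, c⟩ := H1 k (AlgebraicClosure k) _ _ _ hY
    refine ⟨?_, fun Q hQ => det_attached Y Q hQ, ?_, ?_⟩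
    · unfold Datum.SmoothNonic
      rw [disc_eq]
      exact ⟨Pool.Agent.Work.D9odd.disc7_hom _ _ _, a.2⟩
    · intro h1 h2 Q hQ
      rw [attached_iff] at hQ
      exact dense_of (b (isoPlane_of Y h1) (infE_of Y h2) Q hQ.1 hQ.2)
    · obtain ⟨L, hfd, -, -, ⟨Q, hQ1, hQ2⟩, hL⟩ := c inferInstance
      refine ⟨L, hfd, ⟨Q, ?_⟩, fun Q hQ => ?_⟩
      · rw [attached_iff]
        exact ⟨hQ1, hQ2⟩
      · rw [attached_iff] at hQ
        exact dense_of (hL Q hQ.1 hQ.2)
  · obtain ⟨hD, hDΨ⟩ := hD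
    rw [aeval_rename] at hDΨ
    obtain ⟨L, hfd, T0, T1, T2, g, hg, hT, hdisc, -, -, ⟨Q, hQ1, hQ2⟩, hL⟩ :=
      H2 k (AlgebraicClosure k) (fun i => coeff (Pool.Agent.Work.Nonic.ex
        Pool.Agent.Work.Nonic.grid i) D) hDΨ
    refine ⟨L, hfd, ⟨![T1, T2, T0]⟩, ?_, ⟨g, hg, ?_⟩, ⟨Q, ?_⟩, fun Q hQ => ?_⟩
    · unfold Datum.General
      rw [aeval_ord]
      exact hT
    · intro x
      rw [disc_eq]
      have h1 := congrArg (eval x) hdisc
      rw [Pool.Agent.Work.Nonic.eval_subst] at h1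
      refine h1.trans ?_
      have h2 : (Pool.Agent.Work.Nonic.nonic fun i => algebraMap k L
          (coeff (Pool.Agent.Work.Nonic.ex Pool.Agent.Work.Nonic.grid i) D)) =
          map (algebraMap k L) D := by
        rw [← Pool.Agent.Work.Nonic.map_nonic, Pool.Agent.Work.Nonic.nonic_coeff D hD]
      rw [h2, eval_map]
      rfl
    · rw [attached_iff]
      exact ⟨hQ1, hQ2⟩
    · rw [attached_iff] at hQ
      exact dense_of (hL Q hQ.1 hQ.2)

end Pool.Agent.Work.MP_b62148_ag.Old.NonicOdd
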