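import Mathlib
import Pool.Agent.Work.MP_b62148_ag.QK.Top

/-!
Density of rational points on smooth quartic hypersurfaces with one rational point, over number
fields which contain an imaginary quadratic field.
-/

namespace Pool.Agent.Work.MP_b62148_ag.Old.QuarticNumberField

open MvPolynomial

/-- The form `F` is smooth: its partial derivatives have no common zero over the algebraic closure
other than the origin (for a form of positive degree in characteristic zero this says that the
projective hypersurface `F = 0` is smooth). -/
def IsSmoothForm {K : Type*} [Field K] {σ : Type*} (F : MvPolynomial σ K) : Prop :=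
  ∀ x : σ → AlgebraicClosure K, (∀ i, aeval x (pderiv i F) = 0) → x = 0

/-- The matrix of the second partial derivatives of `F` at `p`. -/
noncomputable def hessian {K : Type*} [Field K] {m : ℕ} (F : MvPolynomial (Fin m) K) (p : Fin m → K) :
    Matrix (Fin m) (Fin m) K :=
  Matrix.of fun i j => eval p (pderiv i (pderiv j F))

/-- Some line through `p`, defined over the algebraic closure, has contact of order exactly three
with the quartic `F = 0` at `p`: for some vector `v` one has `F (p + t v) = c t ^ 3 + c' t ^ 4` for
all `t`, with `c ≠ 0`. -/
def HasContactThree {K : Type*} [Field K] {m : ℕ} (F : MvPolynomial (Fin m) K) (p : Fin m → K) :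
    Prop :=
  ∃ (v : Fin m → AlgebraicClosure K) (c c' : AlgebraicClosure K), c ≠ 0 ∧
    ∀ t : AlgebraicClosure K, aeval (fun i => algebraMap K (AlgebraicClosure K) (p i) + t * v i) F =
      c * t ^ 3 + c' * t ^ 4

/-- The `K`-points of the (affine cone over the) hypersurface `F = 0` are Zariski dense: every
polynomial vanishing at all of them is a multiple of `F`. -/
def DensePoints {K : Type*} [Field K] {σ : Type*} (F : MvPolynomial σ K) : Prop :=
  ∀ G : MvPolynomial σ K, (∀ x : σ → K, eval x F = 0 → eval x G = 0) → F ∣ G

/-- Let `L` be a number field of degree `2 e` which contains a square root of a negative rational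
number, `n ≥ 3 e + 8`, and `F` a smooth quartic form in `n + 1` variables over `L`. If `F` has a
zero `p` over `L` at which the Hessian has rank at least `3 e + 6` and through which some line has
contact of order exactly three, then the `L`-points of the hypersurface are Zariski dense. -/
theorem result {L : Type*} [Field L] [NumberField L] (θ : L) (d : ℚ) (hd : 0 < d)
    (hθ : θ ^ 2 = -(d : L)) (e : ℕ) (he : Module.finrank ℚ L = 2 * e) (n : ℕ)
    (hn : 3 * e + 8 ≤ n) (F : MvPolynomial (Fin (n + 1)) L) (hF : F.IsHomogeneous 4)
    (hs : IsSmoothForm F) (p : Fin (n + 1) → L) (hp : eval p F = 0)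
    (hr : 3 * e + 6 ≤ (hessian F p).rank) (hc : HasContactThree F p) : DensePoints F := by
  obtain ⟨v, c, c', hc0, hv⟩ := hc
  exact fun G hG => Pool.Agent.Work.QK.top_nf θ d hd hθ he (by simp; omega) F hF hs p hp hr v c c'
    hc0 hv G hG

end Pool.Agent.Work.MP_b62148_ag.Old.QuarticNumberField
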