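import Mathlib
import Pool.Agent.Work.MP_b62148_ag.Sextic.MainS

/-!
Potential unirationality and potential density of rational points for all smooth sextic
hypersurfaces in projective space of dimension at least 190.
-/

namespace Pool.Agent.Work.MP_b62148_ag.Old.SmoothSextic

open MvPolynomial

/-- The form `F` is smooth: its partial derivatives have no common zero over the algebraic closure
other than the origin (for a form of positive degree in characteristic zero this says that the
projective hypersurface `F = 0` is smooth). -/
def IsSmoothForm {k : Type*} [Field k] {σ : Type*} (F : MvPolynomial σ k) : Prop :=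
  ∀ x : σ → AlgebraicClosure k, (∀ i, aeval x (pderiv i F) = 0) → x = 0

/-- The hypersurface `F = 0` is unirational over `K`: there are polynomials `P_i` in `m` variables
over `K`, for some `m`, with `F (P) = 0` identically, and such that every polynomial vanishing
identically at `P` is a multiple of `F` (the resulting rational map from affine space to the
hypersurface `F = 0` is dominant). -/
def Unirational {K : Type*} [Field K] {σ : Type*} (F : MvPolynomial σ K) : Prop :=
  ∃ (m : ℕ) (P : σ → MvPolynomial (Fin m) K),
    aeval P F = 0 ∧ ∀ G : MvPolynomial σ K, aeval P G = 0 → F ∣ G

/-- The `K`-points of the (affine cone over the) hypersurface `F = 0` are Zariski dense: every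
polynomial vanishing at all of them is a multiple of `F`. -/
def DensePoints {K : Type*} [Field K] {σ : Type*} (F : MvPolynomial σ K) : Prop :=
  ∀ G : MvPolynomial σ K, (∀ x : σ → K, eval x F = 0 → eval x G = 0) → F ∣ G

/-- Every smooth sextic hypersurface in projective space of dimension `n ≥ 190` over a field of
characteristic zero becomes unirational, and has Zariski dense rational points, over a finite
extension. -/
theorem result {k : Type*} [Field k] [CharZero k] (n : ℕ) (hn : 190 ≤ n)
    (F : MvPolynomial (Fin (n + 1)) k) (hF : F.IsHomogeneous 6) (hs : IsSmoothForm F) :
    ∃ L : IntermediateField k (AlgebraicClosure k), FiniteDimensional k L ∧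
      Unirational (map (algebraMap k L) F) ∧ DensePoints (map (algebraMap k L) F) := by
  exact Pool.Agent.Work.PD6.main_final' 184 le_rfl F hF hs (by simp; omega)

end Pool.Agent.Work.MP_b62148_ag.Old.SmoothSextic
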